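import Pool.Agent.Lib.MP_55dd22_co.Pat
import Pool.Agent.Lib.MP_55dd22_co.Main21

/-! A planar oriented graph (given with a straight-line plane drawing) that has no oriented
colouring with 20 colours: the maximum oriented chromatic number of planar graphs is at least 21. -/

theorem Pool.Agent.Results.MP_55dd22_co.LowerBound21.result :
    ∃ (n : ℕ) (A : Fin n → Fin n → Prop) (p : Fin n → ℝ × ℝ),
      (∀ u v, A u v → ¬ A v u) ∧ Function.Injective p ∧
      (∀ u v w, A u v → p w ∉ openSegment ℝ (p u) (p v)) ∧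
      (∀ u v x y, A u v → A x y → (u, v) ≠ (x, y) →
        Disjoint (openSegment ℝ (p u) (p v)) (openSegment ℝ (p x) (p y))) ∧
      ¬ ∃ c : Fin n → Fin 20, (∀ u v, A u v → c u ≠ c v) ∧
        ∀ u v x y, A u v → A x y → ¬ (c u = c y ∧ c v = c x) := by
  exact Pool.Agent.OCP.plane_of_hyp 19
    (fun H hH hx => Pool.Agent.OCP.not_good_twenty (by simp) hH hx)
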