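import Pool.Agent.Lib.OD.B_STEL
import Pool.Agent.Lib.OD.B_JORD
import Pool.Agent.Lib.OD.B_PEELN
import Pool.Agent.Lib.OD.B_PEELS
import Pool.Agent.Lib.OD.B_SYS
import Pool.Agent.Lib.OD.B_COLF
import Pool.Agent.Lib.OD.B_MAIN
import Pool.Agent.Lib.OD.B_PURE
import Pool.Agent.Lib.OD.B_MIXU
import Pool.Agent.Lib.OD.B_MIXV
import Pool.Agent.Lib.OD.B_KCMP
import Pool.Agent.Lib.OD.B_KBR
import Pool.Agent.Lib.OD.B_BJR
import Pool.Agent.Lib.OD.B_CLKF
import Pool.Agent.Lib.OD.B_J12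
import Pool.Agent.Lib.OD.B_J3
import Pool.Agent.Lib.OD.B_GCU
import Pool.Agent.Lib.OD.B_GCE
import Pool.Agent.Lib.OD.B_F11
import Pool.Agent.Lib.OD.B_F21z
import Pool.Agent.Lib.OD.B_F22
import Pool.Agent.Lib.TopPl.Bridge

set_option autoImplicit false

namespace Pool.Agent.Results.MP_55dd22_co.Upper66Drawn

open Pool.Agent.OD66

/-- Every orientation of a subgraph of a finite planar graph has an oriented 66-colouring. -/
theorem result :
    ∀ (V : Type) [Fintype V] (G : SimpleGraph V), Pool.Agent.Lib.TopPl.Planar G →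
      ∀ A : V → V → Prop, (∀ u v, A u v → G.Adj u v) → (∀ u v, A u v → ¬ A v u) →
        ∃ c : V → Fin 66, (∀ u v, A u v → c u ≠ c v) ∧
          ∀ u v x y, A u v → A x y → ¬ (c u = c y ∧ c v = c x) := by
  have hCU : St_CU := blk_CU blk_CL blk_OP blk_J1 blk_J2 blk_J3
  have hCE : St_CE := blk_CE blk_CL blk_F11 blk_F21z blk_F22
  have hBIN : St_BIN := blk_BIN hCU blk_OP
  have hJN : St_JN := blk_JN hCE hBIN blk_CL
  have hRES : St_RES := blk_RES hBIN blk_OP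
  have hKCMP : St_KCMP := blk_KCMP blk_CL
  have hKBRU : St_KBRU := blk_KBRU hBIN blk_OP
  have hKBRM : St_KBRM := blk_KBRM hKBRU hBIN hJN hRES
  have hMAIN : St_MAIN := blk_MAIN blk_PURES (blk_PUREN blk_KFIN) blk_MIXD blk_MIXN
    (blk_MIXU hKCMP) (blk_MIXV hKCMP hKBRU hKBRM)
  have hSYS : St_SYS := blk_SYS blk_PEELN (blk_PEELS blk_JORD)
  intro V _ G hG
  exact blk_FIN blk_STEL (blk_COL hSYS hMAIN) V G (Pool.Agent.Lib.TopPl.isPlanar_of_planar hG)

end Pool.Agent.Results.MP_55dd22_co.Upper66Drawn
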